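import Pool.Agent.R5.JB.Core

/-!
# Domination number of unitary Cayley graphs two below Jacobsthal's function

There are moduli `n` with arbitrarily many prime factors for which the domination number of
the unitary Cayley graph of `ℤ/nℤ` is at most `g(n) - 2`, where `g` is Jacobsthal's function.
-/

namespace Pool.Agent.Results.MP_6d1f6b_co.GapTwo

open Finset Pool.Agent.R5.JB

/-- The unitary Cayley graph of `ℤ/nℤ`: distinct residues are adjacent iff their difference is a
unit. -/
def unitaryCayley (n : ℕ) : SimpleGraph (ZMod n) where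
  Adj x y := x ≠ y ∧ IsUnit (x - y)
  symm := ⟨fun x y h => ⟨h.1.symm, by simpa using h.2.neg⟩⟩
  loopless := ⟨fun _ h => h.1 rfl⟩

/-- `D` is a dominating set: every vertex is in `D` or has a neighbour in `D`. -/
def IsDominating {V : Type*} (G : SimpleGraph V) (D : Finset V) : Prop :=
  ∀ v, v ∈ D ∨ ∃ u ∈ D, G.Adj v u

/-- The domination number: the least size of a dominating set. -/
noncomputable def domNum {V : Type*} (G : SimpleGraph V) : ℕ :=
  sInf {k | ∃ D : Finset V, IsDominating G D ∧ D.card = k}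

/-- Jacobsthal's function: the least positive `m` such that every block of `m` consecutive integers
contains an integer prime to `n`. -/
noncomputable def jacobsthal (n : ℕ) : ℕ :=
  sInf {m : ℕ | 0 < m ∧ ∀ a : ℤ, ∃ i : ℕ, i < m ∧ IsCoprime (n : ℤ) (a + i)}

lemma jacobsthal_nonempty {n : ℕ} (hn : 1 < n) :
    {m : ℕ | 0 < m ∧ ∀ a : ℤ, ∃ i : ℕ, i < m ∧ IsCoprime (n : ℤ) (a + i)}.Nonempty := by
  refine ⟨n, by omega, fun a => ?_⟩
  have hn0 : (n : ℤ) ≠ 0 := by exact_mod_cast (by omega : n ≠ 0)
  have h1 := Int.emod_nonneg (1 - a) hn0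
  have h2 := Int.emod_lt_of_pos (1 - a) (b := (n : ℤ)) (by omega)
  refine ⟨((1 - a) % n).toNat, by omega, ?_⟩
  rw [Int.toNat_of_nonneg h1]
  have h3 : a + (1 - a) % n = 1 + n * (-((1 - a) / n)) := by
    have := Int.emod_add_mul_ediv (1 - a) n
    linarith
  rw [h3, IsCoprime.add_mul_left_right_iff]
  exact isCoprime_one_right

lemma le_jacobsthal (j : ℕ) : 30 * j + 18 ≤ jacobsthal (N j) := by
  have hN : 1 < N j := by unfold N; have := Q_pos j; omega
  obtain ⟨h1, h2⟩ := Nat.sInf_mem (jacobsthal_nonempty hN)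
  obtain ⟨a, ha⟩ := gap j
  obtain ⟨i, hi, hi2⟩ := h2 a
  by_contra hlt
  push Not at hlt
  change i < jacobsthal (N j) at hi
  exact ha i (by omega) hi2

lemma domNum_le (j : ℕ) : domNum (unitaryCayley (N j)) ≤ 30 * j + 16 := by
  classical
  have hN : 1 < N j := by unfold N; have := Q_pos j; omega
  have : Fact (1 < N j) := ⟨hN⟩
  have : NeZero (N j) := ⟨by omega⟩
  set D : Finset (ZMod (N j)) := (range (30 * j + 16)).image (fun i => ((d j i : ℤ) : ZMod (N j)))
  have hD : IsDominating (unitaryCayley (N j)) D := by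
    intro v
    right
    obtain ⟨i, hi, hc⟩ := dominates j (v.val : ℤ)
    refine ⟨((d j i : ℤ) : ZMod (N j)), mem_image_of_mem _ (mem_range.2 hi), ?_⟩
    have hu : IsUnit (v - ((d j i : ℤ) : ZMod (N j))) := by
      have h1 := (ZMod.coe_int_isUnit_iff_isCoprime ((v.val : ℤ) - d j i) (N j)).2 hc
      push_cast at h1
      rw [ZMod.natCast_zmod_val] at h1
      push_cast
      exact h1
    refine ⟨fun h => ?_, hu⟩
    rw [← h, sub_self] at hu
    exact not_isUnit_zero hu
  calc domNum (unitaryCayley (N j)) ≤ D.card := Nat.sInf_le ⟨D, hD, rfl⟩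
    _ ≤ (range (30 * j + 16)).card := card_image_le
    _ = 30 * j + 16 := card_range _

/-- For every `k` there is an integer `n` with at least `k` distinct prime divisors such that the
domination number of the unitary Cayley graph of `ℤ/nℤ` is at most `g(n) - 2`. -/
theorem result : ∀ k : ℕ, ∃ n : ℕ, 2 ≤ n ∧ k ≤ n.primeFactors.card ∧
    domNum (unitaryCayley n) + 2 ≤ jacobsthal n := by
  intro k
  refine ⟨N k, ?_, primeFactors_card k, ?_⟩
  · unfold N; have := Q_pos k; omega
  · have h1 := domNum_le k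
    have h2 := le_jacobsthal k
    omega

end Pool.Agent.Results.MP_6d1f6b_co.GapTwo
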